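import Pool.Agent.Helper56.NL.Stm
import Pool.Agent.Helper22.GF.AI

/-! Package LW: exponentials of algebraic numbers. -/

set_option autoImplicit false

namespace Pool.Agent.Helper66.NL

open Pool.Agent.Helper35.EM Pool.Agent.Helper56.SA Pool.Agent.Helper56.EM Pool.Agent.Helper56.NL
  Module Submodule Set

theorem g_pos (D k : ℕ) : 0 < g D k := by
  induction k with
  | zero => exact Nat.one_pos
  | succ n ih => exact Nat.mul_pos ih (Nat.pow_pos (Nat.succ_pos D))

/-- combinations of positive powers of a transcendental number are not algebraic -/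
theorem alg_zero {D : ℕ} {p x : ℂ} (hp : p ∉ M.closure ∅)
    (hx : x ∈ span kk (range fun k => p ^ g D k)) (ha : x ∈ M.closure ∅) : x = 0 := by
  have h1 : ∃ f : Polynomial kk, f.coeff 0 = 0 ∧ Polynomial.aeval p f = x := by
    clear ha
    induction hx using Submodule.span_induction with
    | mem y hy =>
      obtain ⟨k, rfl⟩ := hy
      refine ⟨Polynomial.X ^ g D k, ?_, by simp⟩
      rw [Polynomial.coeff_X_pow, if_neg (g_pos D k).ne]
    | zero => exact ⟨0, by simp, by simp⟩
    | add y z _ _ hy hz =>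
      obtain ⟨f, hf, hf'⟩ := hy
      obtain ⟨f', hg, hg'⟩ := hz
      exact ⟨f + f', by rw [Polynomial.coeff_add, hf, hg, add_zero], by rw [map_add, hf', hg']⟩
    | smul c y _ hy =>
      obtain ⟨f, hf, hf'⟩ := hy
      exact ⟨c • f, by rw [Polynomial.coeff_smul, hf, smul_zero], by rw [map_smul, hf']⟩
  obtain ⟨f, hf, hfx⟩ := h1
  set a : kk := ⟨x, mem_cl.1 ha⟩ with hadef
  have h2 : Polynomial.aeval p (f - Polynomial.C a) = 0 := by
    rw [map_sub, hfx, Polynomial.aeval_C]
    exact sub_self x
  have h3 : f - Polynomial.C a = 0 := by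
    by_contra hne
    apply hp
    rw [mem_cl]
    exact cl_idem ⟨f - Polynomial.C a, hne, h2⟩
  have h4 := congrArg (fun P : Polynomial kk => P.coeff 0) h3
  simp only [Polynomial.coeff_sub, Polynomial.coeff_C_zero, Polynomial.coeff_zero, hf, zero_sub,
    neg_eq_zero] at h4
  exact congrArg Subtype.val h4

/-- extension of the scalars to the algebraic closure -/
theorem ext_cl {s : Set ℂ} {n : ℕ} {f : Fin n → ℂ}
    (h : AlgebraicIndependent (IntermediateField.adjoin ℚ s) f) :
    AlgebraicIndependent (clF s) f := by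
  have hle : IntermediateField.adjoin ℚ s ≤ clF s := by
    rw [IntermediateField.adjoin_le_iff]
    intro y hy
    exact mem_cl.1 (cl_self hy)
  let _ : Algebra (IntermediateField.adjoin ℚ s) (clF s) :=
    (IntermediateField.inclusion hle).toRingHom.toAlgebra
  have : IsScalarTower (IntermediateField.adjoin ℚ s) (clF s) ℂ := .of_algebraMap_eq fun _ => rfl
  have : Algebra.IsAlgebraic (IntermediateField.adjoin ℚ s) (clF s) := by
    refine ⟨fun x => ?_⟩
    rw [← isAlgebraic_algHom_iff (IsScalarTower.toAlgHom (IntermediateField.adjoin ℚ s) (clF s) ℂ)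
      Subtype.val_injective]
    exact mem_clF.1 x.2
  exact AlgebraicIndependent.extendScalars (clF s) h

theorem lw : S_LW := by
  intro K lam D p P0 hp hB hP0 hrk n α ha hi
  set V : Submodule ℚ K := span ℚ (range α) with hV
  have hfV : FiniteDimensional ℚ V := FiniteDimensional.span_of_finite ℚ (finite_range α)
  have hdim : finrank ℚ V = n := by
    have := finrank_span_eq_card hi
    simpa using this
  have h1 := hrk V hfV
  have hcl : ∀ y ∈ V, (y : ℂ) ∈ M.closure ∅ ∧
      Complex.exp (lam y) ∈ M.closure (range fun i => Complex.exp (lam (α i))) := by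
    intro y hy
    induction hy using Submodule.span_induction with
    | mem x hx => obtain ⟨i, rfl⟩ := hx; exact ⟨ha i, cl_self ⟨i, rfl⟩⟩
    | zero => exact ⟨cl_zero _, by rw [map_zero, Complex.exp_zero]; exact cl_one _⟩
    | add x y _ _ hx hy => exact ⟨cl_add hx.1 hy.1, by rw [map_add]; exact cl_exp_add hx.2 hy.2⟩
    | smul q x _ hx => exact ⟨cl_smul q hx.1, by rw [map_smul]; exact cl_exp_smul q hx.2⟩
  have hI : V.map (gr lam) ⊓ P0 = ⊥ := by
    rw [eq_bot_iff]
    rintro q ⟨⟨y, hy, rfl⟩, hq⟩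
    have h2 : (gr lam y).1 = 0 := alg_zero hp (hB.form _ hq) (hcl y hy).1
    exact (Submodule.mem_bot ℚ).2 (hB.inj1 _ hq h2)
  rw [hI, finrank_bot, hdim, Nat.cast_zero, add_zero] at h1
  have h2 : M.eRk ({(p : ℂ)} ∪ co (V.map (gr lam))) ≤
      M.eRk ({(p : ℂ)} ∪ range fun i => Complex.exp (lam (α i))) := by
    rw [← M.eRk_closure_eq ({(p : ℂ)} ∪ range fun i => Complex.exp (lam (α i)))]
    apply M.eRk_mono
    rintro a (ha' | ⟨_, ⟨y, hy, rfl⟩, rfl | rfl⟩)
    · exact cl_self (Or.inl ha')
    · exact cl_empty_le (hcl y hy).1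
    · exact cl_mono subset_union_right (hcl y hy).2
  have hfin : M.eRk {(p : ℂ)} ≠ ⊤ := by
    refine ne_top_of_le_ne_top ?_ (M.eRk_le_encard _)
    simp
  refine ext_cl (Pool.Agent.Helper22.GF.ai' {(p : ℂ)} hfin n _ ?_)
  rw [add_comm]
  exact h1.trans h2

end Pool.Agent.Helper66.NL

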